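import Mathlib

set_option autoImplicit false
set_option maxHeartbeats 400000

namespace Pool.Agent.Results.MP_1cd45c_al.AeqB

open LaurentPolynomial

/-- The rank-refined counts `A_n^r`, with `q = T 1`. -/
noncomputable def Ar : ℕ → ℕ → ℤ[T;T⁻¹]
  | 0, 0 => 1
  | 0, _ + 1 => 0
  | n + 1, 0 => Ar n 0
  | n + 1, r + 1 => T (r + 1) * Ar n (r + 1) + (T (n - r) - T r) * Ar n r

/-- The `q`-analogue `b_{k,l}` of the Euler-Bernoulli triangle. -/
noncomputable def b : ℕ → ℕ → ℤ[T;T⁻¹]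
  | 0, 0 => 1
  | 0, l + 1 => T (l + 1) * b l 0
  | k + 1, l => T (-1) * b k (l + 1) + (T (l + 1) - T l) * b l k
termination_by k l => (k + l, k)
decreasing_by
  · exact Prod.Lex.left _ _ (by omega)
  · exact (show k + (l + 1) = k + 1 + l by omega) ▸ Prod.Lex.right _ (by omega)
  · exact Prod.Lex.left _ _ (by omega)

section
variable {K : Type} [Field K] (w : K)

lemma ex_mu (hw : w ≠ 0) : ∃ μ : ℤ → K, (∀ j, μ (-j) = -μ j) ∧
    (∀ j, μ (-3 - j) * w ^ (3 + 2 * j) = μ j) ∧ μ 1 = 1 ∧ μ 2 * w = 1 := by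
  refine ⟨fun j => (if j % 6 = 1 ∨ j % 6 = 2 then 1 else if j % 6 = 4 ∨ j % 6 = 5 then -1 else 0) *
    w ^ (-((j * j - 1) / 3)), fun j => ?_, fun j => ?_, by norm_num, by norm_num [hw]⟩
  · simp only [neg_mul_neg]
    split_ifs <;> first | omega | simp
  · have : -(((-3 - j) * (-3 - j) - 1) / 3) + (3 + 2 * j) = -((j * j - 1) / 3) := by
      rw [show (-3 - j) * (-3 - j) - 1 = j * j - 1 + (3 + 2 * j) * 3 by ring,
        Int.add_mul_ediv_right _ _ (by norm_num)]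
      ring
    simp only [mul_assoc, ← zpow_add₀ hw, this]
    split_ifs <;> first | omega | simp

variable (μ : ℤ → K)

noncomputable def c : ℕ → ℕ → ℤ → K
  | 0, 0, j => μ j
  | 0, l + 1, j => w⁻¹ ^ 2 * c 0 l (j + 1) + w ^ 2 * c 0 l (j - 1)
  | k + 1, l, j => c k l (j + 1) + c k l (j - 1)

lemma c_succ (k l : ℕ) (j : ℤ) :
    c w μ k (l + 1) j = w⁻¹ ^ 2 * c w μ k l (j + 1) + w ^ 2 * c w μ k l (j - 1) := by
  induction k generalizing j with
  | zero => rw [c]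
  | succ k ih =>
    simp only [c, ih, add_sub_cancel_right, sub_add_cancel]
    ring

lemma c_neg (h1 : ∀ j, μ (-j) = -μ j) (k : ℕ) (j : ℤ) : c w μ k 0 (-j) = -c w μ k 0 j := by
  induction k generalizing j with
  | zero => simp only [c, h1]
  | succ k ih =>
    rw [c, c, show -j + 1 = -(j - 1) by ring, show -j - 1 = -(j + 1) by ring, ih, ih]
    ring

lemma c_refl (hw : w ≠ 0) (h2 : ∀ j, μ (-3 - j) * w ^ (3 + 2 * j) = μ j) (k l : ℕ) (j : ℤ) :
    c w μ l k (-3 - j) * w ^ (3 + 2 * j) = c w μ k l j := by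
  induction k generalizing j with
  | zero =>
    induction l generalizing j with
    | zero => simp only [c, h2]
    | succ l ih =>
      rw [c, c, ← ih (j + 1), ← ih (j - 1), show -3 - j + 1 = -3 - (j - 1) by ring,
        show -3 - j - 1 = -3 - (j + 1) by ring, show 3 + 2 * (j + 1) = 3 + 2 * j + 2 by ring,
        show 3 + 2 * (j - 1) = 3 + 2 * j - 2 by ring, zpow_add₀ hw _ 2, zpow_sub₀ hw _ 2]
      field_simp
      ring
  | succ k ih =>
    rw [c_succ, c, ← ih (j + 1), ← ih (j - 1), show -3 - j + 1 = -3 - (j - 1) by ring,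
      show -3 - j - 1 = -3 - (j + 1) by ring, show 3 + 2 * (j + 1) = 3 + 2 * j + 2 by ring,
      show 3 + 2 * (j - 1) = 3 + 2 * j - 2 by ring, zpow_add₀ hw _ 2, zpow_sub₀ hw _ 2]
    field_simp
    ring

lemma c_zero (h1 : ∀ j, μ (-j) = -μ j) (h2 : (2 : K) ≠ 0) (k : ℕ) : c w μ k 0 0 = 0 := by
  have := c_neg w μ h1 k 0
  rw [neg_zero] at this
  exact (mul_eq_zero.mp (by linear_combination this : 2 * c w μ k 0 0 = 0)).resolve_left h2

lemma b_eq (hw : w ≠ 0) (h0 : (2 : K) ≠ 0) (h1 : ∀ j, μ (-j) = -μ j)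
    (h2 : ∀ j, μ (-3 - j) * w ^ (3 + 2 * j) = μ j) (h3 : μ 2 * w = 1)
    (φ : ℤ[T;T⁻¹] →+* K) (hφ : ∀ n, φ (T n) = w ^ (4 * n)) (k l : ℕ) :
    φ (b k l) = -w ^ ((k + l) ^ 2 + 2 * k + 4 * l + 1) * c w μ k l (-2) := by
  have hφ' : ∀ n : ℕ, φ (T n) = w ^ (4 * n) := fun n => by rw [hφ]; norm_cast
  have hφ'' : ∀ n : ℕ, φ (T (n + 1)) = w ^ (4 * n + 4) := fun n => by rw [hφ]; norm_cast
  induction k, l using b.induct with
  | case1 => rw [b, c, h1]; simp [mul_comm w, h3]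
  | case2 l ih =>
    have h4 := c_refl w μ hw h2 0 (l + 1) (-2)
    have h5 := c_zero w μ h1 h0 l
    rw [b, map_mul, ih, hφ'', ← h4, c]
    norm_num [h5]
    field_simp
    ring
  | case3 k l ih1 ih2 =>
    have h4 := c_refl w μ hw h2 l k (-2)
    rw [b, map_add, map_mul, map_mul, map_sub, ih1, ih2, hφ'', hφ', hφ, c_succ, c, ← h4]
    norm_num
    field_simp
    ring

noncomputable def g : ℕ → ℤ → K
  | 0, _ => 0
  | 1, j => μ j
  | m + 2, j => g (m + 1) (j + 1) + g (m + 1) (j - 1) - (1 - w⁻¹ ^ (4 * m)) * g m j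

lemma g_neg (h1 : ∀ j, μ (-j) = -μ j) (m : ℕ) (j : ℤ) : g w μ m (-j) = -g w μ m j := by
  induction m using Nat.twoStepInduction generalizing j with
  | zero => simp [g]
  | one => simp [g, h1]
  | more m ih1 ih2 =>
    rw [g, g, show -j + 1 = -(j - 1) by ring, show -j - 1 = -(j + 1) by ring, ih1, ih2, ih2]
    ring

lemma g_refl (hw : w ≠ 0) (h2 : ∀ j, μ (-3 - j) * w ^ (3 + 2 * j) = μ j) (m : ℕ) (j : ℤ) :
    g w μ (m + 1) (-3 - j) * w ^ (3 + 2 * j) =
      w ^ (2 * m) * (g w μ (m + 1) j - (1 - w⁻¹ ^ (4 * m)) * g w μ m (j + 1)) := by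
  induction m using Nat.twoStepInduction generalizing j with
  | zero => simp [g, h2]
  | one =>
    have a1 := h2 (j + 1)
    have a2 := h2 (j - 1)
    rw [show 3 + 2 * (j + 1) = 3 + 2 * j + 2 by ring, zpow_add₀ hw _ 2] at a1
    rw [show 3 + 2 * (j - 1) = 3 + 2 * j - 2 by ring, zpow_sub₀ hw _ 2] at a2
    simp only [g]
    rw [show -3 - j + 1 = -3 - (j - 1) by ring, show -3 - j - 1 = -3 - (j + 1) by ring,
      ← a1, ← a2]
    simp only [inv_pow]
    field_simp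
    ring
  | more m ih1 ih2 =>
    have a1 := ih2 (j + 1)
    have a2 := ih2 (j - 1)
    have a3 := ih1 j
    rw [show 3 + 2 * (j + 1) = 3 + 2 * j + 2 by ring, zpow_add₀ hw _ 2] at a1
    rw [show 3 + 2 * (j - 1) = 3 + 2 * j - 2 by ring, zpow_sub₀ hw _ 2, sub_add_cancel] at a2
    have a4 := g.eq_3 w μ (j + 1) m
    rw [add_sub_cancel_right] at a4
    have hy : w ^ (3 + 2 * j) ≠ 0 := zpow_ne_zero _ hw
    rw [← eq_div_iff (by simp [hw, hy])] at a1 a2 a3
    rw [g.eq_3 w μ (-3 - j) (m + 1), g.eq_3 w μ j (m + 1),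
      show -3 - j + 1 = -3 - (j - 1) by ring, show -3 - j - 1 = -3 - (j + 1) by ring,
      a1, a2, a3, a4]
    generalize w ^ (3 + 2 * j) = y at *
    simp only [inv_pow]
    field_simp
    ring

lemma g_one (hw : w ≠ 0) (h0 : (2 : K) ≠ 0) (h1 : ∀ j, μ (-j) = -μ j)
    (h2 : ∀ j, μ (-3 - j) * w ^ (3 + 2 * j) = μ j) (h3 : μ 1 = 1) (m : ℕ) :
    w ^ (m ^ 2) * g w μ (m + 1) 1 = 1 := by
  have z : ∀ m, g w μ m 0 = 0 := fun m => by
    have := g_neg w μ h1 m 0
    rw [neg_zero] at this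
    exact (mul_eq_zero.mp (by linear_combination this : 2 * g w μ m 0 = 0)).resolve_left h0
  have r : ∀ m, g w μ (m + 1) 2 = w ^ (2 * m) / w * g w μ (m + 1) 1 := fun m => by
    have a := g_refl w μ hw h2 m (-1)
    have a' := g_neg w μ h1 (m + 1) 2
    have a'' := g_neg w μ h1 (m + 1) 1
    norm_num [z] at a
    rw [a', a''] at a
    field_simp
    linear_combination -a
  induction m using Nat.twoStepInduction with
  | zero => simp [g, h3]
  | one =>
    have := r 0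
    simp only [g] at this ⊢
    norm_num [this, h3]
    have := z 1
    simp only [g] at this
    rw [this]
    field_simp
    ring
  | more m ih1 ih2 =>
    rw [mul_comm, ← eq_div_iff (by simp [hw])] at ih1 ih2
    rw [g]
    norm_num only
    rw [r, z, ih1, ih2]
    simp only [inv_pow]
    field_simp
    ring

end

lemma Ar_zero (n r : ℕ) (h : n < 2 * r) : Ar n r = 0 := by
  induction n generalizing r with
  | zero => obtain ⟨r, rfl⟩ : ∃ s, r = s + 1 := ⟨r - 1, by omega⟩; rfl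
  | succ n ih =>
    obtain ⟨r, rfl⟩ : ∃ s, r = s + 1 := ⟨r - 1, by omega⟩
    rw [Ar, ih _ (by omega)]
    by_cases h1 : n = 2 * r
    · rw [show (n : ℤ) - r = r by omega]; simp
    · rw [ih _ (by omega)]; simp

lemma A_eq {K : Type} [Field K] (w : K) (μ : ℤ → K) (hw : w ≠ 0)
    (φ : ℤ[T;T⁻¹] →+* K) (hφ : ∀ n, φ (T n) = w ^ (4 * n)) (n : ℕ) (j : ℤ) :
    ∑ r ∈ Finset.range (n + 1), φ (Ar n r) * (w ^ ((n - 2 * r) ^ 2) * g w μ (n - 2 * r + 1) j) =
      w ^ (n ^ 2) * c w μ n 0 j := by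
  induction n generalizing j with
  | zero => simp [Ar, g, c]
  | succ n ih =>
    have key : ∀ r, w ^ (2 * n + 1) *
        (φ (Ar n r) * (w ^ ((n - 2 * r) ^ 2) * g w μ (n - 2 * r + 1) (j + 1)) +
          φ (Ar n r) * (w ^ ((n - 2 * r) ^ 2) * g w μ (n - 2 * r + 1) (j - 1))) =
        φ (T r * Ar n r) * (w ^ ((n + 1 - 2 * r) ^ 2) * g w μ (n + 1 - 2 * r + 1) j) +
        φ ((T (n - r) - T r) * Ar n r) *
          (w ^ ((n + 1 - 2 * (r + 1)) ^ 2) * g w μ (n + 1 - 2 * (r + 1) + 1) j) := by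
      intro r
      by_cases h : n < 2 * r
      · simp [Ar_zero n r h]
      obtain ⟨m, rfl⟩ : ∃ m, n = 2 * r + m := ⟨n - 2 * r, by omega⟩
      have hφ' : ∀ n : ℕ, φ (T n) = w ^ (4 * n) := fun n => by rw [hφ]; norm_cast
      rw [show ((2 * r + m : ℕ) : ℤ) - r = (r + m : ℕ) by push_cast; ring, map_mul, map_mul,
        map_sub, hφ', hφ', show 2 * r + m - 2 * r = m by omega,
        show 2 * r + m + 1 - 2 * r = m + 1 by omega]
      cases m with
      | zero => simp only [g]; ring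
      | succ m =>
        rw [show 2 * r + (m + 1) + 1 - 2 * (r + 1) = m by omega, g.eq_3 _ _ j (m + 1)]
        simp only [inv_pow]
        field_simp
        ring
    rw [c, show (n + 1) ^ 2 = 2 * n + 1 + n ^ 2 by ring, pow_add, mul_assoc, mul_add (w ^ n ^ 2),
      ← ih, ← ih, ← Finset.sum_add_distrib, Finset.mul_sum, Finset.sum_congr rfl fun r _ => key r,
      Finset.sum_add_distrib, Finset.sum_range_succ' _ (n + 1)]
    simp only [Ar, map_add, add_mul, Finset.sum_add_distrib]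
    rw [add_right_comm]
    congr 1
    rw [Finset.sum_range_succ, Finset.sum_range_succ' _ n, Ar_zero n (n + 1) (by omega)]
    simp

theorem result (n : ℕ) (hn : 1 ≤ n) : ∑ r ∈ Finset.range (n + 1), Ar n r = b (n - 1) 0 := by
  obtain ⟨n, rfl⟩ : ∃ m, n = m + 1 := ⟨n - 1, by omega⟩
  obtain ⟨ι, hι⟩ : ∃ ι : ℤ[T;T⁻¹] →+* FractionRing ℤ[T;T⁻¹], Function.Injective ι :=
    ⟨algebraMap _ _, IsFractionRing.injective _ _⟩
  obtain ⟨ψ, h1, h2⟩ : ∃ ψ : ℤ[T;T⁻¹] →+* ℤ[T;T⁻¹], Function.Injective ψ ∧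
      ∀ n, ψ (T n) = T (4 * n) := by
    refine ⟨AddMonoidAlgebra.mapDomainRingHom ℤ (AddMonoidHom.mulLeft (4 : ℤ)), ?_, fun n => ?_⟩
    · exact AddMonoidAlgebra.mapDomain_injective (fun a b h => by simpa using h)
    · exact AddMonoidAlgebra.mapDomain_single
  have hw : ι (T 1) ≠ 0 := ((isUnit_T 1).map ι).ne_zero
  have h3 : ∀ n : ℤ, ι (T n) = ι (T 1) ^ n := by
    intro n
    induction n with
    | zero => simp
    | succ n ih => rw [T_add, map_mul, ih, zpow_add_one₀ hw]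
    | pred n ih =>
      rw [zpow_sub_one₀ hw, ← ih, eq_mul_inv_iff_mul_eq₀ hw, ← map_mul, ← T_add]
      simp
  have h0 : (2 : FractionRing ℤ[T;T⁻¹]) ≠ 0 := by
    rw [← map_ofNat ι 2, ← map_zero ι, hι.ne_iff, ← map_ofNat (C : ℤ →+* ℤ[T;T⁻¹]) 2]
    intro h
    have := congrArg (fun f : ℤ[T;T⁻¹] => f.coeff 0) h
    simp at this
  obtain ⟨μ, a1, a2, a3, a4⟩ := ex_mu _ hw
  have hφ : ∀ n, (ι.comp ψ) (T n) = ι (T 1) ^ (4 * n) := fun n => by
    rw [RingHom.comp_apply, h2, h3]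
  have h5 : Function.Injective (ι.comp ψ) := hι.comp h1
  apply h5
  have a5 := A_eq _ μ hw _ hφ (n + 1) 1
  simp only [g_one _ μ hw h0 a1 a2 a3, mul_one] at a5
  rw [map_sum, a5, Nat.add_sub_cancel, b_eq _ μ hw h0 a1 a2 a4 _ hφ, c_neg _ μ a1, c]
  norm_num [c_zero _ μ a1 h0]
  left
  ring

end Pool.Agent.Results.MP_1cd45c_al.AeqB
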